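import Pool.Agent.Helper58.R3.Stmts

open Classical

namespace Pool.Agent.Helper58.R3

theorem st_NOC (h1 : ST_TRI) (h2 : ST_CLS) (h3 : ST_SZ) : ST_NOC := by
  intro m H v0 A X L D Φ hc
  obtain ⟨i, a, c2⟩ := h1 m H v0 A X L D Φ hc
  have ha : a 0 ∈ L (i 0) := c2.aL 0
  have hne : (L (i 0)).Nonempty := ⟨a 0, ha⟩
  have hnb : nb H (L (i 0)) = D (i 0) := c2.nbD (i 0) hne
  apply h2 m H v0 A X L D Φ i a c2 (L (i 0)) (Φ (i 0))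
  refine ⟨?_, ⟨?_, ?_⟩, ?_, ?_, ?_⟩
  · rw [hnb]; exact c2.D3 (i 0) hne
  · rw [hnb]; exact c2.c.inj (i 0)
  · rw [hnb]; exact c2.c.hom (i 0)
  · intro x hx
    exact (c2.c.ΦL (i 0) x hx).1
  · rw [hnb]; exact c2.c.ΦD (i 0)
  · obtain ⟨z, hz, hadj⟩ := h3 m H v0 A X L D Φ i a c2 (i 0) (a 0) ha
    exact ⟨a 0, ha, z, hz, hadj⟩

end Pool.Agent.Helper58.R3
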